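import Pool.Agent.helper81.CX.Spec2
import Pool.Agent.helper81.CI.All

set_option autoImplicit false

open MeasureTheory Set Filter Topology
open scoped ENNReal
open Pool.Agent.helper81.CW

noncomputable section

namespace Pool.Agent.CX

theorem AL2 (hSG2 : SG2_stmt) : AL2_stmt := by
  obtain ⟨α, _, h2, h3, h4⟩ := Pool.Agent.CI.all_CIN
  refine ⟨α, ?_, h2, h3, h4⟩
  refine ge_of_tendsto h3 ?_
  filter_upwards [hSG2, eventually_ge_atTop 1] with n hn hn1
  have hfin : sigma n ≠ ∞ := ne_top_of_le_ne_top ENNReal.one_ne_top (Pool.Agent.CI.all_SBI n hn1).1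
  have h5 : (0.7808 : ℝ) ^ n ≤ (sigma n).toReal := by
    have h6 := ENNReal.toReal_mono hfin hn
    rw [ENNReal.toReal_ofReal (by positivity)] at h6
    exact h6
  have hn0 : (n : ℝ) ≠ 0 := by
    have : n ≠ 0 := by omega
    exact_mod_cast this
  calc (0.7808 : ℝ) = ((0.7808 : ℝ) ^ n) ^ (1 / (n : ℝ)) := by
        rw [← Real.rpow_natCast, ← Real.rpow_mul (by norm_num), mul_one_div_cancel hn0, Real.rpow_one]
    _ ≤ (sigma n).toReal ^ (1 / (n : ℝ)) :=
        Real.rpow_le_rpow (by positivity) h5 (by positivity)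

end Pool.Agent.CX
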