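import Pool.Agent.helper81.CX.Spec2

set_option autoImplicit false

open MeasureTheory Set Filter Topology
open scoped ENNReal
open Pool.Agent.helper81.CW

noncomputable section

namespace Pool.Agent.CX

theorem SPD (hLCX : LCX_stmt) (hSMT : SMT_stmt) (hSEQ : SEQ_stmt) : SPD_stmt := by
  intro n f c hf hc0 hc1
  obtain ⟨K, hK⟩ := hSMT n f hf
  have hl := hLCX n f c hf.bm hc0.le hc1.le
  have hev : ∀ᶠ j : ℕ in atTop, CR f f (c ^ j) ≤ K * (c ^ 2) ^ j := by
    have ht : Tendsto (fun j : ℕ => c ^ j) atTop (𝓝 0) :=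
      tendsto_pow_atTop_nhds_zero_of_lt_one hc0.le hc1
    have h2 : ∀ᶠ j : ℕ in atTop, c ^ j ≤ 1 / 2 :=
      (ht.eventually (gt_mem_nhds (show (0 : ℝ) < 1 / 2 by norm_num))).mono (fun _ h => le_of_lt h)
    filter_upwards [h2] with j hj
    have h3 := hK (c ^ j) (pow_pos hc0 j) hj
    have h4 : (c ^ j) ^ 2 = (c ^ 2) ^ j := by
      rw [← pow_mul, ← pow_mul, mul_comm]
    rw [← h4]
    exact h3
  have key := hSEQ (fun j => CR f f (c ^ j)) (c ^ 2) K (by positivity) (fun j => (hl j).1)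
    (fun j => (hl j).2) hev
  have k0 := key 0
  have k1 := key 1
  simp only [zero_add, pow_one, pow_zero] at k0
  simp only [pow_one] at k1
  exact ⟨k0, k1⟩

end Pool.Agent.CX
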